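import Pool.Agent.V1176.LN.Ell

/-!
# Primes with `#E(F_p) / t` prime for ALL members of families of elliptic curves in windows

For polynomials `a`, `b` with integer coefficients let `E_n` be the curve `y² = x³ + a(n) x + b(n)`. Let `v_ν ≥ 1` be a
sequence of exponent of convergence at most `τ`, `ϑ < 1` and `0 ≤ κ ≤ 1`. For all `α > 0` outside a set of Hausdorff
dimension at most `(1 - κ + τ) / (1 - ϑ)` the number of the primes `p ≤ x` (in a prescribed set) for which `#E_n(F_p) / t` is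
a prime is the expected number `V`, up to `ε max (V, n ^ κ)`, for ALL `a`, `b`, ALL `t`, ALL integers `n` with
`|n - α v_ν| ≤ v_ν ^ ϑ`, `ν` large, and ALL `x ≤ n ^ (1 / 2)`. The same in small residue classes.
-/

set_option autoImplicit false

namespace Pool.Agent.Results.MP_b89fd0_nt.AllCurvesInWindows

open Polynomial
open Pool.Agent.V1176.LN (points Smooth hcount hmodel)

/-- `p` is in the set number `i.2`, the curve `E : y² = x³ + A x + B` remains smooth modulo `p` and `#E(F_p) / i.1` is a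
prime (`#E(F_p) = points p A B + 1`). -/
def PrimeQuotient (P : ℕ → Set ℕ) (i : ℕ × ℕ) (p : ℕ) (A B : ℤ) : Prop :=
  p ∈ P i.2 ∧ Smooth p A B ∧ ∃ q : ℕ, q.Prime ∧ points p A B + 1 = i.1 * q

/-- The law for the curve `y² = x³ + a(n) x + b(n)`: the number of the primes `p ≤ x` at which it has the property is up to
`ε max (V, n ^ κ)` the sum `V` over the primes `p ≤ x` of the proportion of the members of the family modulo `p` with the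
property. -/
def Law (P : ℕ → Set ℕ) (i : ℕ × ℕ) (a b : ℤ[X]) (κ ε : ℝ) (n x : ℕ) : Prop :=
  |(hcount (PrimeQuotient P) i (a.eval (n : ℤ)) (b.eval (n : ℤ)) x : ℝ) - hmodel (PrimeQuotient P) i a b x| ≤
    ε * max (hmodel (PrimeQuotient P) i a b x) ((n : ℝ) ^ κ)

/-- the exponent of convergence of the sequence `v` is at most `τ` -/
def ExpLe (v : ℕ → ℝ) (τ : ℝ) : Prop := ∀ t : ℝ, τ < t → Summable (fun n : ℕ => (v n) ^ (-t))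

/-- `P n x` for all large `ν`, ALL integers `n ≥ 1` with `|n - α v_ν| ≤ v_ν ^ ϑ` and ALL `x ≤ n ^ (1 / 2)` -/
def InWindows (v : ℕ → ℝ) (ϑ α : ℝ) (P : ℕ → ℕ → Prop) : Prop :=
  ∃ ν₀ : ℕ, ∀ ν : ℕ, ν₀ ≤ ν → ∀ n : ℕ, 1 ≤ n → |(n : ℝ) - α * v ν| ≤ (v ν) ^ ϑ →
    ∀ x : ℕ, x ^ 2 ≤ n → P n x

/-- `P n x` for all large `Y`, ALL integers `1 ≤ n ≤ Y` with `|n - α|_q ≤ Y ^ (-σ)` and ALL `x ≤ n ^ (1 / 2)` -/
def InClasses (q : ℕ) [Fact q.Prime] (σ : ℝ) (α : ℤ_[q]) (P : ℕ → ℕ → Prop) : Prop :=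
  ∃ Y₀ : ℝ, ∀ Y : ℝ, Y₀ ≤ Y → ∀ n : ℕ, 1 ≤ n → (n : ℝ) ≤ Y → ‖(n : ℤ_[q]) - α‖ ≤ Y ^ (-σ) →
    ∀ x : ℕ, x ^ 2 ≤ n → P n x

lemma inv (P : ℕ → Set ℕ) : ∀ (i : ℕ × ℕ) (p : ℕ) (A A' B B' : ℤ), (p : ℤ) ∣ A - A' → (p : ℤ) ∣ B - B' →
    PrimeQuotient P i p A B → PrimeQuotient P i p A' B' := by
  rintro i p A A' B B' hA hB h
  obtain ⟨h1, h2, h3⟩ := h
  refine ⟨h1, (Pool.Agent.V1176.LN.smooth_congr p hA hB).1 h2, ?_⟩
  rw [← Pool.Agent.V1176.LN.points_congr p hA hB]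
  exact h3

/-- **Primes with `#E(F_p) / t` prime for ALL members of families of elliptic curves in windows.** -/
theorem result :
    (∀ (v : ℕ → ℝ) (τ ϑ κ : ℝ), (∀ ν, 1 ≤ v ν) → 0 ≤ τ → ExpLe v τ → ϑ < 1 → 0 ≤ κ → κ ≤ 1 → ∀ P : ℕ → Set ℕ,
      ∃ E : Set ℝ, dimH E ≤ ENNReal.ofReal ((1 - κ + τ) / (1 - ϑ)) ∧ ∀ α : ℝ, 0 < α → α ∉ E →
        ∀ (i : ℕ × ℕ) (a b : ℤ[X]) (ε : ℝ), 0 < ε → InWindows v ϑ α (Law P i a b κ ε)) ∧
    (∀ a : ℝ, 0 < a → ExpLe (fun n : ℕ => ((n : ℝ) + 1) ^ a) (1 / a)) ∧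
    (∀ b : ℝ, 1 < b → ExpLe (fun n : ℕ => b ^ n) 0) ∧
    (∀ (q : ℕ) [Fact q.Prime] (σ κ : ℝ), 0 < σ → 0 ≤ κ → κ ≤ 1 → ∀ P : ℕ → Set ℕ,
      ∃ E : Set ℤ_[q], dimH E ≤ ENNReal.ofReal ((1 - κ) / σ) ∧ ∀ α : ℤ_[q], α ∉ E →
        ∀ (i : ℕ × ℕ) (a b : ℤ[X]) (ε : ℝ), 0 < ε → InClasses q σ α (Law P i a b κ ε)) := by
  refine ⟨?_, fun κ hκ => Pool.Agent.Y854.GM.expLe_pow κ hκ,
    fun b hb => Pool.Agent.Y854.GM.expLe_geom b hb, ?_⟩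
  · intro v τ ϑ κ hv hτ hvτ hϑ hκ0 hκ1 P
    exact Pool.Agent.V1176.LN.ell_win (H := PrimeQuotient P) (inv P) hv hτ hvτ hκ0 hκ1 hϑ
  · intro q _ σ κ hσ hκ0 hκ1 P
    exact Pool.Agent.V1176.LN.ell_cls q (H := PrimeQuotient P) (inv P) hκ0 hκ1 hσ

end Pool.Agent.Results.MP_b89fd0_nt.AllCurvesInWindows
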