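import Pool.Agent.TH894.NE4

/-!
# Primes `p` for which `#E(F_p) / t` is prime, in arbitrary families of sets of primes and for all `t` at once, for almost all
elliptic curves whose two coefficients arise from arbitrary integers by changing a few digits

The number of these primes is compared with the sum over the primes of the proportion of the curves modulo `p` with the property;
the error is essentially the square root of this sum. Nothing is used besides Mathlib in the statement.
-/

set_option autoImplicit false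

namespace Pool.Agent.Results.MP_b89fd0_nt.AllIndicesFewDigitCurves

open Finset

/-- The number of the solutions of `Y ^ 2 = X ^ 3 + m 0 X + m 1` modulo `p`. -/
def points (p : ℕ) (m : Fin 2 → ℕ) : ℕ :=
  ((range p ×ˢ range p).filter (fun xy => xy.2 ^ 2 % p = (xy.1 ^ 3 + m 0 * xy.1 + m 1) % p)).card

/-- `Y ^ 2 = X ^ 3 + m 0 X + m 1` remains smooth modulo `p` (that is, `p` does not divide `2 (4 (m 0) ^ 3 + 27 (m 1) ^ 2)`), and the
order `points p m + 1` of its group of points over `F_p` is `t` times a prime number. -/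
def PrimeQuotient (p : ℕ) (m : Fin 2 → ℕ) (t : ℕ) : Prop :=
  ¬ p ∣ 2 * (4 * m 0 ^ 3 + 27 * m 1 ^ 2) ∧ ∃ q : ℕ, q.Prime ∧ points p m + 1 = t * q

open Classical in
/-- The number of the primes `p ≤ x` in `P` for which the curve with the coefficients `m` has good reduction (for this model) and
`#E(F_p) / t` is prime. -/
noncomputable def count (P : Set ℕ) (m : Fin 2 → ℕ) (t x : ℕ) : ℕ :=
  ((range (x + 1)).filter (fun p => p.Prime ∧ p ∈ P ∧ PrimeQuotient p m t)).card

open Classical in
/-- The sum over the primes `p ≤ x` in `P` of the proportion of the curves with this property among all pairs of coefficients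
modulo `p`. -/
noncomputable def expected (P : Set ℕ) (t x : ℕ) : ℝ :=
  ∑ p ∈ (range (x + 1)).filter (fun p => p.Prime ∧ p ∈ P),
    (((Fintype.piFinset (fun _ : Fin 2 => range p)).filter (fun n => PrimeQuotient p n t)).card : ℝ) / (p : ℝ) ^ 2

/-- For all `P ∈ W` and all `t` the number of the primes `p ≤ x` in `P` for which `#E(F_p) / t` is prime differs from the expected
number `V` by at most `(max 1 V) ^ (1 / 2) x ^ δ`. -/
def Good (W : Set (Set ℕ)) (δ : ℝ) (x : ℕ) (m : Fin 2 → ℕ) : Prop :=
  ∀ P ∈ W, ∀ t : ℕ, 1 ≤ t →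
    |(count P m t x : ℝ) - expected P t x| ≤ Real.sqrt (max 1 (expected P t x)) * (x : ℝ) ^ δ

/-- The digit number `i` (counted from the right, beginning with `0`) of `n` in base `b`. -/
def digit (b i n : ℕ) : ℕ := n / b ^ i % b

/-- The number which arises from the number `N` with at most `K` digits in base `b`, if for every `i ∈ S`
the digit number `i` is replaced by `f i`. -/
def change (b K N : ℕ) (f : ℕ → ℕ) (S : Finset ℕ) : ℕ :=
  ∑ i ∈ range K, (if i ∈ S then f i else digit b i N) * b ^ i

open Classical in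
/-- The number of the choices of `r l` of `K l` positions for `l = 0, 1` for which the pair of the numbers obtained by
changing the digits of `N 0`, `N 1` at the chosen positions (according to `f 0`, `f 1`) does not have the property `E`. -/
noncomputable def exceptions (b : ℕ) (K r N : Fin 2 → ℕ) (f : Fin 2 → ℕ → ℕ) (E : (Fin 2 → ℕ) → Prop) : ℕ :=
  ((Fintype.piFinset (fun l => powersetCard (r l) (range (K l)))).filter
    (fun S => ¬ E (fun l => change b (K l) (N l) (f l) (S l)))).card

lemma points_mod (p : ℕ) (m : Fin 2 → ℕ) : points p (fun i => m i % p) = points p m := by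
  unfold points
  congr 1
  apply filter_congr
  intro xy _
  have h : xy.1 ^ 3 + m 0 % p * xy.1 + m 1 % p ≡ xy.1 ^ 3 + m 0 * xy.1 + m 1 [MOD p] :=
    (((Nat.mod_modEq (m 0) p).mul_right xy.1).add_left (xy.1 ^ 3)).add (Nat.mod_modEq (m 1) p)
  rw [h]

lemma pq_mod (p : ℕ) (m : Fin 2 → ℕ) (t : ℕ) : PrimeQuotient p m t ↔ PrimeQuotient p (fun i => m i % p) t := by
  unfold PrimeQuotient
  rw [points_mod]
  have h : 2 * (4 * (m 0 % p) ^ 3 + 27 * (m 1 % p) ^ 2) ≡ 2 * (4 * m 0 ^ 3 + 27 * m 1 ^ 2) [MOD p] :=
    ((((Nat.mod_modEq (m 0) p).pow 3).mul_left 4).add (((Nat.mod_modEq (m 1) p).pow 2).mul_left 27)).mul_left 2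
  rw [h.dvd_iff dvd_rfl]

lemma points_le (p : ℕ) (m : Fin 2 → ℕ) : points p m ≤ p * p := by
  unfold points
  refine (card_filter_le _ _).trans ?_
  rw [card_product, card_range]

/-- Let a base `b ≥ 2`, `δ > 0` and integers `A, B ≥ 0` be given. There are `c > 0` and `y₀` such that for all integers `r 0`, `r 1`,
`K 0`, `K 1`, `y` with `2 r l ≤ K l` and `y ≥ y₀` the following holds.

Let `0 ≤ N l < b ^ K l` be arbitrary integers, prescribe for every position `j` a digit `f l j` different from the digit of `N l` in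
base `b` (`l = 0, 1`), and let for every `x` a set `W x` of at most `x ^ B` sets `P` of natural numbers be given (for instance
arithmetic progressions). If one chooses `r l` of the `K l` positions and replaces the digits of `N l` at these positions, then for all
but at most a proportion `1 / y ^ A` of the choices the elliptic curve `E : Y ^ 2 = X ^ 3 + m 0 X + m 1` with the numbers `m 0`, `m 1`
obtained has the following property: for all integers `x` with `y ≤ x ≤ exp (c r l)` (`l = 0, 1`), all `P ∈ W x` and all `t ≥ 1` the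
number of the primes `p ≤ x` in `P` for which `#E(F_p) / t` is a prime number differs from its expected value `V` (the sum over the
primes `p ≤ x` in `P` of the proportion of the pairs of coefficients modulo `p` with this property) by at most
`(max 1 V) ^ (1 / 2) x ^ δ`. -/
theorem result (b : ℕ) (hb : 2 ≤ b) (δ : ℝ) (hδ : 0 < δ) (A B : ℕ) : ∃ c : ℝ, 0 < c ∧ ∃ y₀ : ℕ,
    ∀ (K r : Fin 2 → ℕ) (y : ℕ), (∀ l, 2 * r l ≤ K l) → y₀ ≤ y →
    ∀ N : Fin 2 → ℕ, (∀ l, N l < b ^ K l) → ∀ f : Fin 2 → ℕ → ℕ, (∀ l j, f l j < b ∧ f l j ≠ digit b j (N l)) →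
    ∀ W : ℕ → Set (Set ℕ), (∀ x, (W x).Finite ∧ (W x).ncard ≤ x ^ B) →
      (exceptions b K r N f (fun m => ∀ x : ℕ, y ≤ x → (∀ l, (x : ℝ) ≤ Real.exp (c * r l)) → Good (W x) δ x m) : ℝ) ≤
        1 / (y : ℝ) ^ A * ∏ l, ((K l).choose (r l) : ℝ) := by
  classical
  obtain ⟨c, hc, x₀, h⟩ := Pool.Agent.TH894.NE.law2 b 2 hb (by norm_num) δ A ((B + 4 : ℕ) : ℝ) hδ
  refine ⟨c, hc, x₀ + 3, fun K r y hrK hy N hN f hf W hW => ?_⟩
  have hWf : ∀ n, (W n).Finite := fun n => (hW n).1
  have hy0 : (0 : ℝ) < y := by exact_mod_cast (by omega : 0 < y)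
  have h1 : 1 / (y : ℝ) ^ A = (y : ℝ) ^ (-(A : ℝ)) := by
    rw [Real.rpow_neg hy0.le, Real.rpow_natCast, one_div]
  rw [h1]
  unfold exceptions
  refine h r K y hrK (by omega) N hN f hf (Set ℕ × ℕ)
    (fun x => if x < 2 then ∅ else (hWf x).toFinset ×ˢ Icc 1 (x ^ 2 + 1)) ?_ ℕ
    (fun x l => (range (x + 1)).filter (fun p => p.Prime ∧ p ∈ l.1)) (fun _ p => p) ?_ ?_
    (fun l p m => PrimeQuotient p m l.2) ?_ _ (filter_subset _ _) ?_
  · intro x _
    show (((if x < 2 then ∅ else (hWf x).toFinset ×ˢ Icc 1 (x ^ 2 + 1)) : Finset (Set ℕ × ℕ)).card : ℝ) ≤ _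
    rw [Real.rpow_natCast]
    split_ifs with hx
    · rw [card_empty, Nat.cast_zero]
      positivity
    · push Not at hx
      rw [card_product, ← Set.ncard_eq_toFinset_card _ (hWf x), Nat.card_Icc]
      have e1 : (W x).ncard * (x ^ 2 + 1 + 1 - 1) ≤ x ^ (B + 4) := by
        rw [pow_add]
        apply Nat.mul_le_mul (hW x).2
        have h4 : 4 ≤ x ^ 2 := by
          calc 4 = 2 ^ 2 := by norm_num
            _ ≤ x ^ 2 := Nat.pow_le_pow_left hx 2
        have h5 : x ^ 4 = x ^ 2 * x ^ 2 := by ring
        rw [h5]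
        have : x ^ 2 + 1 + 1 - 1 = x ^ 2 + 1 := by omega
        rw [this]
        nlinarith
      exact_mod_cast e1
  · intro x l _ p hp
    rw [mem_filter, mem_range] at hp
    exact ⟨hp.2.1.one_lt.le, by omega⟩
  · intro x l _ p hp p' hp' hne
    rw [mem_filter] at hp hp'
    exact (Nat.coprime_primes hp.2.1 hp'.2.1).2 hne
  · intro x l _ p _ m
    exact pq_mod p m l.2
  · intro S hS
    rw [mem_filter] at hS
    obtain ⟨_, hS2⟩ := hS
    unfold Good at hS2
    push Not at hS2
    obtain ⟨x, hyx, hxr, P, hP, t, ht1, hlt⟩ := hS2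
    have hx0 : (0 : ℝ) < x := by exact_mod_cast (by omega : 0 < x)
    obtain ⟨m, hm⟩ : ∃ m : Fin 2 → ℕ, m = fun l => change b (K l) (N l) (f l) (S l) := ⟨_, rfl⟩
    have hcount : (count P m t x : ℝ) =
        ((((range (x + 1)).filter (fun p => p.Prime ∧ p ∈ P)).filter (fun p => PrimeQuotient p m t)).card : ℝ) := by
      unfold count
      rw [filter_filter]
      simp only [and_assoc]
    have hexp : expected P t x = ∑ p ∈ (range (x + 1)).filter (fun p => p.Prime ∧ p ∈ P),
        Pool.Agent.TH894.NE.Pr 2 p (fun n => PrimeQuotient p n t) := by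
      unfold expected Pool.Agent.TH894.NE.Pr Pool.Agent.TH894.NE.box
      rfl
    refine ⟨x, hyx, fun l => (Real.log_le_iff_le_exp hx0).2 (hxr l), (P, t), ?_, ?_⟩
    · show (P, t) ∈ (if x < 2 then ∅ else (hWf x).toFinset ×ˢ Icc 1 (x ^ 2 + 1))
      rw [if_neg (by omega), mem_product, Set.Finite.mem_toFinset]
      refine ⟨hP, ?_⟩
      by_contra hcon
      -- the number `t` is too large
      have hno : ∀ p ∈ (range (x + 1)).filter (fun p => p.Prime ∧ p ∈ P), ∀ n, ¬ PrimeQuotient p n t := by
        intro p hp n hn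
        rw [mem_filter, mem_range] at hp
        apply hcon
        obtain ⟨_, q, hq, hpt⟩ := hn
        have h2 := points_le p n
        have hpx : p ≤ x := by omega
        have h3 : p * p ≤ x ^ 2 := by rw [sq]; exact Nat.mul_le_mul hpx hpx
        have h4 : t ≤ t * q := Nat.le_mul_of_pos_right t hq.pos
        rw [mem_Icc]
        exact ⟨ht1, by show t ≤ x ^ 2 + 1; omega⟩
      have h9 : count P m t x = 0 := by
        unfold count
        rw [card_eq_zero, filter_eq_empty_iff]
        intro p hp hp2
        exact hno p (by rw [mem_filter]; exact ⟨hp, hp2.1, hp2.2.1⟩) m hp2.2.2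
      have h10 : expected P t x = 0 := by
        unfold expected
        apply sum_eq_zero
        intro p hp
        have : (Fintype.piFinset (fun _ : Fin 2 => range p)).filter (fun n => PrimeQuotient p n t) = ∅ := by
          rw [filter_eq_empty_iff]
          intro n _
          exact hno p hp n
        rw [this, card_empty, Nat.cast_zero, zero_div]
      rw [← hm, h9, h10] at hlt
      simp at hlt
      have : 0 ≤ (x : ℝ) ^ δ := by positivity
      linarith
    · rw [← hm, hcount, hexp, hm] at hlt
      exact hlt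

end Pool.Agent.Results.MP_b89fd0_nt.AllIndicesFewDigitCurves
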